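import Pool.Agent.P.MP_d3e5c7_ag.AGen
import Pool.Agent.P.MP_d3e5c7_ag.Spec

/-! Tools: degrees, orders, Bezout modulo a curve, vector fields, supply of points. -/

set_option autoImplicit false

namespace Pool.Agent.P.MP_d3e5c7_ag.K3

open MvPolynomial Module PA

variable {K : Type*} [Field K]

/-- polynomials of degree less than `n` -/
noncomputable def T (K : Type*) [Field K] (n : ℕ) : Submodule K (Pl K) :=
  restrictSupport K {β | β.degree < n}

theorem mem_T' {n : ℕ} {f : Pl K} : f ∈ T K n ↔ ∀ β ∈ f.support, β.degree < n := Iff.rfl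

theorem deg_le {f : Pl K} {β : Fin 2 →₀ ℕ} (h : β ∈ f.support) : β.degree ≤ f.totalDegree :=
  le_totalDegree h

theorem mem_T {n : ℕ} {f : Pl K} : f ∈ T K n ↔ f = 0 ∨ f.totalDegree < n := by
  refine ⟨fun h => or_iff_not_imp_left.2 fun h0 => ?_, ?_⟩
  · obtain ⟨β, hβ, e⟩ := f.support.exists_mem_eq_sup (support_nonempty.2 h0)
      fun s => s.sum fun _ e => e
    exact (show f.totalDegree = β.degree from e).trans_lt (h hβ)
  · rintro (rfl | h)
    · exact zero_mem _
    · exact fun β hβ => (deg_le hβ).trans_lt h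

theorem mem_T_succ {n : ℕ} {f : Pl K} : f ∈ T K (n + 1) ↔ f.totalDegree ≤ n := by
  rw [mem_T, Nat.lt_succ_iff]
  exact ⟨fun h => h.elim (fun e => by simp [e]) id, Or.inr⟩

theorem T_mono {a b : ℕ} {f : Pl K} (h : f ∈ T K a) (hab : a ≤ b) : f ∈ T K b :=
  fun _ hβ => (h hβ).trans_le hab

theorem T_mul {a b c : ℕ} {f g : Pl K} (hf : f ∈ T K a) (hg : g ∈ T K b) (h : a + b ≤ c + 1) :
    f * g ∈ T K c := by
  rw [mem_T] at *
  rcases hf with rfl | hf
  · simp
  rcases hg with rfl | hg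
  · simp
  have := totalDegree_mul f g
  omega

theorem T_div {n : ℕ} {f q : Pl K} (hf : f ≠ 0) (h : f * q ∈ T K n) :
    q ∈ T K (n - f.totalDegree) := by
  by_cases hq : q = 0
  · exact hq ▸ zero_mem _
  rw [mem_T, totalDegree_mul_of_isDomain hf hq] at h
  exact mem_T.2 (.inr (by have := h.resolve_left (mul_ne_zero hf hq); omega))

instance (n : ℕ) : FiniteDimensional K (T K n) :=
  have := (Finsupp.finite_of_degree_lt (σ := Fin 2) n).to_subtype
  Module.Finite.of_basis (basisRestrictSupport K _)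

theorem finrank_T (n : ℕ) : 2 * finrank K (T K n) = n * (n + 1) := by
  classical
  have h := finrank_inf_add_cd (cof_mx (0 : Fin 2 → K) n) (S := T K n)
  have h1 : (mx (0 : Fin 2 → K) ^ n).restrictScalars K ⊓ T K n = ⊥ := by
    refine eq_bot_iff.2 fun f ⟨a, b⟩ => ?_
    rw [SetLike.mem_coe, Submodule.restrictScalars_mem, mx_zero, mem_pow_idealOfVars_iff'] at a
    exact support_eq_empty.1 (Finset.eq_empty_of_forall_notMem fun β hβ =>
      mem_support_iff.1 hβ (a β (b hβ)))
  have h2 : (mx (0 : Fin 2 → K) ^ n).restrictScalars K ⊔ T K n = ⊤ := by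
    refine eq_top_iff.2 fun f _ => ?_
    rw [f.as_sum]
    refine sum_mem fun β _ => ?_
    by_cases hβ : β.degree < n
    · exact Submodule.mem_sup_right ((monomial_mem_restrictSupport K).2 (.inl hβ))
    · refine Submodule.mem_sup_left ?_
      rw [Submodule.restrictScalars_mem, mx_zero, mem_pow_idealOfVars_iff']
      intro x hx
      rw [coeff_monomial, if_neg (by rintro rfl; exact hβ hx)]
  rw [h1, h2, cd_top, finrank_bot] at h
  have := ci_mx (0 : Fin 2 → K) n
  unfold ci at this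
  omega

theorem T_pderiv {n : ℕ} {f : Pl K} (h : f ∈ T K (n + 1)) (k : Fin 2) : pderiv k f ∈ T K n := by
  intro β hβ
  have := h (mem_support_iff.2 (left_ne_zero_of_mul (coeff_pderiv f β ▸ mem_support_iff.1 hβ)))
  simpa using this

theorem T_euler {n : ℕ} {f : Pl K} (h : f ∈ T K (n + 1)) :
    X 0 * pderiv 0 f + X 1 * pderiv 1 f - (n : Pl K) * f ∈ T K n := by
  rw [f.as_sum, map_sum, map_sum, Finset.mul_sum, Finset.mul_sum, Finset.mul_sum,
    ← Finset.sum_add_distrib, ← Finset.sum_sub_distrib]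
  refine sum_mem fun β hβ => ?_
  have h1 : β.degree < n + 1 := h hβ
  rw [X_mul_pderiv_monomial, X_mul_pderiv_monomial, ← add_nsmul, ← nsmul_eq_mul,
    ← Fin.sum_univ_two β, ← Finsupp.degree_eq_sum]
  by_cases e : β.degree = n
  · rw [e, sub_self]; exact zero_mem _
  · have : monomial β (coeff β f) ∈ T K n :=
      (monomial_mem_restrictSupport K).2 (.inl (show β.degree < n by omega))
    exact sub_mem (nsmul_mem this _) (nsmul_mem this _)

/-! ### Orders -/

theorem mem_mx {p : Fin 2 → K} {w : Pl K} : w ∈ mx p ↔ eval p w = 0 := by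
  refine ⟨fun h => ?_, fun h => by simpa [h] using sub_C_mem p w⟩
  have : mx p ≤ RingHom.ker (eval p) := Ideal.span_le.2 (by rintro _ ⟨k, rfl⟩; simp)
  exact this h

theorem mem_van {p : Fin 2 → K} {n : ℕ} {f : Pl K} : f ∈ mx p ^ n ↔ Van p n f :=
  (mem_mx_iff p n f).trans (van_iff_hc p n f).symm

theorem mem_ord {p : Fin 2 → K} {n : ℕ} {f : Pl K} (hf : f ≠ 0) : f ∈ mx p ^ n ↔ n ≤ ordN p f := by
  rw [mem_van, van_iff_le_ordN p hf, Nat.cast_le]

theorem of_mul_mem {p : Fin 2 → K} {n : ℕ} {f w : Pl K} (hf : f ≠ 0)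
    (h : f * w ∈ mx p ^ (ordN p f + n)) : w ∈ mx p ^ n := by
  by_cases hw : w = 0
  · exact hw ▸ zero_mem _
  rw [mem_ord (mul_ne_zero hf hw), ordN_mul p hf hw] at h
  exact (mem_ord hw).2 (by omega)

theorem taylor (p : Fin 2 → K) (w : Pl K) : w - C (eval p w) -
    C (eval p (pderiv 0 w)) * (X 0 - C (p 0)) - C (eval p (pderiv 1 w)) * (X 1 - C (p 1)) ∈
      mx p ^ 2 := by
  have hX := X_sub_mem p
  induction w using MvPolynomial.induction_on with
  | C c => simp
  | add a b ha hb =>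
    convert add_mem ha hb using 1
    simp only [map_add]
    ring
  | mul_X a k ha =>
    have h1 := Ideal.mul_mem_left _ (C (p k)) ha
    have h2 : (a - C (eval p a)) * (X k - C (p k)) ∈ mx p ^ 2 :=
      sq (mx p) ▸ Ideal.mul_mem_mul (sub_C_mem p a) (hX k)
    convert add_mem h1 h2 using 1
    fin_cases k <;> simp <;> ring

theorem mem_sq {p : Fin 2 → K} {w : Pl K} (h : eval p w = 0) (h0 : eval p (pderiv 0 w) = 0)
    (h1 : eval p (pderiv 1 w) = 0) : w ∈ mx p ^ 2 := by
  simpa [h, h0, h1] using taylor p w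

theorem of_unit_mul {p : Fin 2 → K} {n : ℕ} {u w : Pl K} {J : Ideal (Pl K)} (hu : eval p u ≠ 0)
    (h : w * u ∈ mx p ^ n ⊔ J) : w ∈ mx p ^ n ⊔ J := by
  have h1 : Ideal.span {u} ⊔ mx p ^ n = ⊤ := Ideal.sup_pow_eq_top (span_sup_mx hu)
  obtain ⟨a, ha, b, hb, e⟩ := Submodule.mem_sup.1 (h1 ▸ Submodule.mem_top : (1 : Pl K) ∈ _)
  obtain ⟨c, rfl⟩ := Ideal.mem_span_singleton'.1 ha
  rw [show w = c * (w * u) + w * b by linear_combination (-w) * e]
  exact add_mem (Ideal.mul_mem_left _ _ h) (Submodule.mem_sup_left (Ideal.mul_mem_left _ _ hb))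

/-- a vector field that is radial at a point -/
theorem radial {p : Fin 2 → K} {a b l : Pl K} (ha : a - l * (X 0 - C (p 0)) ∈ mx p ^ 2)
    (hb : b - l * (X 1 - C (p 1)) ∈ mx p ^ 2) (m : ℕ) {f : Pl K} (hf : f ∈ mx p ^ m) :
    a * pderiv 0 f + b * pderiv 1 f - (m : Pl K) * l * f ∈ mx p ^ (m + 1) := by
  have hX := X_sub_mem p
  have h2 : mx p ^ 2 ≤ mx p := Ideal.pow_le_self two_ne_zero
  have h0 : ∀ f : Pl K, a * pderiv 0 f + b * pderiv 1 f ∈ mx p := fun f => add_mem
    (Ideal.mul_mem_right _ _ (by simpa using add_mem (h2 ha) (Ideal.mul_mem_left _ l (hX 0))))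
    (Ideal.mul_mem_right _ _ (by simpa using add_mem (h2 hb) (Ideal.mul_mem_left _ l (hX 1))))
  have h1 : ∀ v ∈ mx p, a * pderiv 0 v + b * pderiv 1 v - l * v ∈ mx p ^ 2 := fun v hv => by
    have t := taylor p v
    rw [mem_mx.1 hv] at t
    have k : ∀ j, (X j - C (p j)) * (pderiv j v - C (eval p (pderiv j v))) ∈ mx p ^ 2 := fun j =>
      sq (mx p) ▸ Ideal.mul_mem_mul (hX j) (sub_C_mem p _)
    convert sub_mem (add_mem (add_mem (Ideal.mul_mem_right (pderiv 0 v) _ ha)
      (Ideal.mul_mem_right (pderiv 1 v) _ hb)) (Ideal.mul_mem_left _ l (add_mem (k 0) (k 1))))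
      (Ideal.mul_mem_left _ l t) using 1
    simp only [map_zero]
    ring
  induction m generalizing f with
  | zero => simpa using h0 f
  | succ m ih =>
    rw [pow_succ] at hf
    refine Submodule.mul_induction_on hf (fun u hu v hv => ?_) fun u v hu hv => ?_
    · convert add_mem (mul_mem_pow (ih hu) ((pow_one (mx p)).ge hv) le_rfl)
        (mul_mem_pow hu (h1 v hv) le_rfl) using 1
      simp only [pderiv_mul]
      push_cast
      ring
    · convert add_mem hu hv using 1
      simp only [map_add]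
      ring

/-- counting conditions -/
theorem cd_inf {V : Type*} [AddCommGroup V] [Module K V] {A B : Submodule K V} (hA : Cof A)
    (hB : Cof B) : Cof (A ⊓ B) ∧ cd (A ⊓ B) ≤ cd A + cd B := by
  have h1 := Cof.inf_comap LinearMap.id hB hA
  have h2 := cd_map LinearMap.id hB hA
  rw [Submodule.comap_id] at h1 h2
  exact ⟨h1, by omega⟩

theorem cd_cond {V ι : Type*} [AddCommGroup V] [Module K V] (F : ι → V →ₗ[K] Pl K)
    (p : ι → Fin 2 → K) (k : ι → ℕ) (s : Finset ι) :
    Cof (⨅ i ∈ s, ((mx (p i) ^ k i).restrictScalars K).comap (F i)) ∧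
      2 * cd (⨅ i ∈ s, ((mx (p i) ^ k i).restrictScalars K).comap (F i)) ≤
        ∑ i ∈ s, k i * (k i + 1) := by
  classical
  induction s using Finset.induction_on with
  | empty => simpa using ⟨cof_top, cd_top⟩
  | insert i s hi ih =>
    have h1 := Cof.inf_comap (F i) (cof_mx (p i) (k i)) cof_top
    have h2 := cd_map (F i) (cof_mx (p i) (k i)) cof_top
    rw [top_inf_eq] at h1 h2
    have h3 := cd_inf h1 ih.1
    have h4 := ci_mx (p i) (k i)
    rw [cd_top] at h2
    rw [Finset.iInf_insert, Finset.sum_insert hi]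
    unfold ci at h4
    exact ⟨h3.1, by omega⟩

theorem deg_pos {f : Pl K} (hf : Irreducible f) : 0 < f.totalDegree := by
  refine Nat.pos_of_ne_zero fun h => hf.not_isUnit ?_
  have e := totalDegree_eq_zero_iff_eq_C.1 h
  have := hf.ne_zero
  rw [e] at this ⊢
  exact (Ne.isUnit fun h0 => this (by rw [h0, map_zero])).map C

theorem exists_lin {f : Pl K} (hf : Irreducible f) (s : Fin 2 → K) :
    ∃ k, ¬ f ∣ X k - C (s k) := by
  by_contra hc
  push Not at hc
  choose q hq using hc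
  have h1 : ∀ k, q k = C (coeff 0 (q k)) := fun k => by
    have : f * q k ∈ T K 2 := hq k ▸ sub_mem (mem_T_succ.2 (by simp)) (mem_T_succ.2 (by simp))
    exact totalDegree_eq_zero_iff_eq_C.1 (Nat.le_zero.1 (mem_T_succ.1
      (T_mono (T_div hf.ne_zero this) (by have := deg_pos hf; omega))))
  have a := congrArg (pderiv 0) (hq 0)
  have b := congrArg (pderiv 0) (hq 1)
  have c := congrArg (pderiv 1) (hq 1)
  rw [h1] at a b c
  simp at a b c
  rcases b with b | b
  · simp [b] at c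
  · simp [b] at a

variable [IsAlgClosed K]

/-- Bezout modulo the curve -/
theorem bez {ι : Type*} [Fintype ι] {p : ι → Fin 2 → K} (hp : Function.Injective p) {f g : Pl K}
    (hf : Irreducible f) (h : ¬ f ∣ g) {e : ℕ} (he : g ∈ T K (e + 1)) {m n : ι → ℕ}
    (hm : ∀ i, f ∈ mx (p i) ^ m i) (hn : ∀ i, g ∈ mx (p i) ^ n i ⊔ Ideal.span {f}) :
    ∑ i, m i * n i ≤ e * f.totalDegree := by
  have h1 := ci_pair_le hf h
  have hc := cof_mono (cof_pair hf h) (J := Ideal.span {g} ⊔ Ideal.span {f})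
    (by rw [Ideal.span_insert, sup_comm])
  have h2 := ci_biInf (K := K)
    (fun i => Ideal.span {g} ⊔ Ideal.span {f} ⊔ mx (p i) ^ (m i - 1 + n i))
    (fun i => cof_mono hc le_sup_left) (fun i j hij => by
      obtain ⟨t, ht⟩ := Function.ne_iff.1 (hp.ne hij)
      have h3 : mx (p i) ⊔ mx (p j) = ⊤ := eq_top_iff.2 ((span_sup_mx (p := p j)
        (h := X t - C (p i t)) (by simpa [sub_eq_zero] using ht.symm)).ge.trans
        (sup_le_sup_right ((Ideal.span_singleton_le_iff_mem _).2 (X_sub_mem _ _)) _))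
      exact eq_top_iff.2 ((Ideal.pow_sup_pow_eq_top h3).ge.trans
        (sup_le_sup le_sup_right le_sup_right))) Finset.univ
  have h3 := ci_anti hc (J := ⨅ i ∈ Finset.univ, Ideal.span {g} ⊔ Ideal.span {f} ⊔
    mx (p i) ^ (m i - 1 + n i)) (le_iInf₂ fun _ _ => le_sup_left)
  rw [h2.2] at h3
  refine (Finset.sum_le_sum fun i _ => ?_).trans (h3.trans (h1.trans
    (Nat.mul_le_mul_right _ (mem_T_succ.1 he))))
  obtain ⟨a, ha, b, hb, e⟩ := Submodule.mem_sup.1 (hn i)
  refine (ci_pair_ge (hm i) ha).trans (ci_anti (cof_mono hc le_sup_left)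
    (sup_le_sup_right (sup_le ((Ideal.span_singleton_le_iff_mem _).2 ?_) le_sup_right) _))
  exact e ▸ add_mem (Submodule.mem_sup_left (Ideal.mem_span_singleton_self a))
    (Submodule.mem_sup_right hb)

theorem supply1 {f u : Pl K} (hf : Irreducible f) (hu : ¬ f ∣ u) (S : Finset (Fin 2 → K)) :
    ∃ Q, Q ∉ S ∧ eval Q f = 0 ∧ eval Q u ≠ 0 := by
  choose k hk using exists_lin hf
  have := (Ideal.span_singleton_prime hf.ne_zero).2 hf.prime
  obtain ⟨φ, hφ⟩ := exists_point (K := K)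
    (Ideal.Quotient.mkₐ K (Ideal.span {f}) (u * ∏ s ∈ S, (X (k s) - C (s (k s))))) (by
      rw [ne_eq, Ideal.Quotient.mkₐ_eq_mk, Ideal.Quotient.eq_zero_iff_mem, Ideal.mem_span_singleton,
        hf.prime.dvd_mul, hf.prime.dvd_finsetProd_iff]
      rintro (h | ⟨s, -, h⟩)
      exacts [hu h, hk s h])
  let ψ := φ.comp (Ideal.Quotient.mkₐ K (Ideal.span {f}))
  have e : ∀ w, φ (Ideal.Quotient.mkₐ K (Ideal.span {f}) w) = eval (fun j => ψ (X j)) w :=
    fun w => by rw [← coe_aeval_eq_eval]; exact DFunLike.congr_fun (aeval_unique ψ) w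
  rw [e, map_mul, map_prod] at hφ
  refine ⟨fun j => ψ (X j), fun h => right_ne_zero_of_mul hφ (Finset.prod_eq_zero h (by simp)), ?_,
    left_ne_zero_of_mul hφ⟩
  rw [← e, Ideal.Quotient.mkₐ_eq_mk,
    Ideal.Quotient.eq_zero_iff_mem.2 (Ideal.mem_span_singleton_self f), map_zero]

theorem supply {f u : Pl K} (hf : Irreducible f) (hu : ¬ f ∣ u) (S : Finset (Fin 2 → K)) :
    ∃ Q : ℕ → Fin 2 → K, Function.Injective Q ∧
      ∀ j, Q j ∉ S ∧ eval (Q j) f = 0 ∧ eval (Q j) u ≠ 0 := by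
  classical
  have h : {Q | Q ∉ S ∧ eval Q f = 0 ∧ eval Q u ≠ 0}.Infinite := fun h => by
    obtain ⟨Q, h1, h2⟩ := supply1 hf hu (S ∪ h.toFinset)
    rw [Finset.mem_union, not_or, Set.Finite.mem_toFinset] at h1
    exact h1.2 ⟨h1.1, h2⟩
  exact ⟨fun j => h.natEmbedding _ j, Subtype.val_injective.comp (h.natEmbedding _).injective,
    fun j => (h.natEmbedding _ j).2⟩

theorem exists_pderiv [CharP K 2] {f : Pl K} (hf : Irreducible f) : ∃ k, ¬ f ∣ pderiv k f := by
  by_contra hc
  push Not at hc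
  have h0 : ∀ k, pderiv k f = 0 := fun k => by
    obtain ⟨q, hq⟩ := hc k
    have := T_div hf.ne_zero (hq ▸ T_pderiv (mem_T_succ.2 le_rfl) k)
    rw [Nat.sub_self, mem_T] at this
    rw [hq, this.resolve_right (Nat.not_lt_zero _), mul_zero]
  have h1 : ∀ β ∈ f.support, ∃ γ, γ + γ = β := fun β hβ => by
    have : ∀ k, ∃ c, c + c = β k := fun k => by
      rcases Nat.even_or_odd' (β k) with ⟨c, e | e⟩
      · exact ⟨c, by omega⟩
      have h := coeff_pderiv (i := k) f (β - Finsupp.single k 1)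
      rw [h0, coeff_zero, tsub_add_cancel_of_le (Finsupp.single_le_iff.2 (by omega)),
        Finsupp.tsub_apply, Finsupp.single_eq_same, e, Nat.add_sub_cancel, Nat.cast_mul,
        CharP.cast_eq_zero K 2, zero_mul, zero_add, mul_one] at h
      exact absurd h.symm (mem_support_iff.1 hβ)
    choose c hc using this
    exact ⟨Finsupp.equivFunOnFinite.symm c, Finsupp.ext hc⟩
  choose! γ hγ using h1
  choose r hr using fun c : K => IsAlgClosed.exists_pow_nat_eq c two_pos
  have e : f = (∑ β ∈ f.support, monomial (γ β) (r (coeff β f))) ^ 2 := by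
    rw [sum_pow_char]
    conv_lhs => rw [f.as_sum]
    refine Finset.sum_congr rfl fun β hβ => ?_
    rw [monomial_pow, two_nsmul, hγ β hβ, hr]
  exact not_irreducible_pow (by norm_num) (e ▸ hf)

end Pool.Agent.P.MP_d3e5c7_ag.K3
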