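import Pool.Agent.P.MP_d3e5c7_ag.K3.A

/-! The foliation `dg` of a sextic in characteristic two and the curves through its zeros. -/

set_option autoImplicit false

namespace Pool.Agent.P.MP_d3e5c7_ag.K3

open MvPolynomial Module PA Finset

variable (K : Type*) [Field K]

/-- the sextic -/
noncomputable def g : Pl K := X 0 ^ 5 * X 1 + X 0 ^ 5 + X 1 ^ 5 + X 0 ^ 2 * X 1 + X 0 * X 1

/-- first derivative -/
noncomputable def gx : Pl K := X 1 * (1 + X 0 ^ 4) + X 0 ^ 4

/-- second derivative -/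
noncomputable def gy : Pl K := X 1 ^ 4 + X 0 + X 0 ^ 2 + X 0 ^ 5

/-- mixed derivative -/
noncomputable def lam : Pl K := 1 + X 0 ^ 4

variable {K}

/-- the vector field -/
noncomputable def dl (f : Pl K) : Pl K := gy K * pderiv 0 f + gx K * pderiv 1 f

/-- a zero of the vector field -/
def Sing (p : Fin 2 → K) : Prop := eval p (gx K) = 0 ∧ eval p (gy K) = 0

theorem T_pow (k : Fin 2) {a n : ℕ} (h : a < n) : (X k ^ a : Pl K) ∈ T K n :=
  mem_T.2 (.inr (by simpa using h))

theorem T_X (k : Fin 2) : (X k : Pl K) ∈ T K 2 := mem_T.2 (.inr (by simp))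

theorem g_mem : g K ∈ T K 7 :=
  add_mem (add_mem (add_mem (add_mem (T_mul (T_pow 0 (Nat.lt_succ_self 5)) (T_X 1) le_rfl)
    (T_pow 0 (by norm_num))) (T_pow 1 (by norm_num)))
    (T_mul (T_pow 0 (Nat.lt_succ_self 2)) (T_X 1) (by norm_num)))
    (T_mul (T_X 0) (T_X 1) (by norm_num))

theorem dl_deg {f : Pl K} {d : ℕ} (hf : f ∈ T K (d + 1)) :
    dl f - (d : Pl K) * lam K * f ∈ T K (d + 4) := by
  have h1 : (X 1 ^ 4 + X 0 ^ 2 : Pl K) ∈ T K 5 :=
    add_mem (T_pow 1 (by norm_num)) (T_pow 0 (by norm_num))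
  have h2 : (X 0 ^ 4 : Pl K) ∈ T K 5 := T_pow 0 (by norm_num)
  have h3 : lam K ∈ T K 5 := add_mem (mem_T_succ.2 (by simp)) h2
  convert add_mem (add_mem (T_mul h1 (T_pderiv hf 0) (c := d + 4) (by omega))
    (T_mul h2 (T_pderiv hf 1) (c := d + 4) (by omega)))
    (T_mul h3 (T_euler hf) (c := d + 4) (by omega)) using 1
  simp only [dl, gx, gy, lam]
  ring

variable [CharP K 2]

theorem two : (2 : Pl K) = 0 := CharTwo.two_eq_zero

theorem d0g : pderiv 0 (g K) = gx K := by
  simp [g, gx]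
  linear_combination (2 * X 0 ^ 4 * X 1 + 2 * X 0 ^ 4 + X 0 * X 1) * two (K := K)

theorem d1g : pderiv 1 (g K) = gy K := by
  simp [g, gy]
  linear_combination (2 * X 1 ^ 4) * two (K := K)

theorem Sing.rad {p : Fin 2 → K} (h : Sing p) (m : ℕ) {f : Pl K} (hf : f ∈ mx p ^ m) :
    dl f - (m : Pl K) * lam K * f ∈ mx p ^ (m + 1) := by
  have t : (2 : K) = 0 := CharTwo.two_eq_zero
  refine radial (mem_sq (by simp [h.2]) ?_ ?_) (mem_sq (by simp [h.1]) ?_ ?_) m hf
  · simp [gy, lam]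
    linear_combination (p 0 + 2 * p 0 ^ 4) * t
  · simp [gy, lam]
    exact .inl (by linear_combination 2 * t)
  · simp [gx, lam]
    linear_combination (2 * p 0 ^ 3 * p 1 + 2 * p 0 ^ 3) * t
  · simp [gx, lam]

theorem Sing.sq {p : Fin 2 → K} (h : Sing p) : g K - C (eval p (g K)) ∈ mx p ^ 2 :=
  mem_sq (by simp) (by simpa [d0g] using h.1) (by simpa [d1g] using h.2)

theorem tangent {p : Fin 2 → K} {f θ : Pl K} (h : dl f = f * θ) (h0 : eval p f = 0) {k : Fin 2}
    (hk : eval p (pderiv k f) ≠ 0) : g K - C (eval p (g K)) ∈ mx p ^ 2 ⊔ Ideal.span {f} := by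
  have t : (2 : K) = 0 := CharTwo.two_eq_zero
  have e := congrArg (eval p) h
  simp only [dl, map_add, map_mul, h0, zero_mul] at e
  obtain ⟨c, c0, c1⟩ : ∃ c, eval p (gx K) = c * eval p (pderiv 0 f) ∧
      eval p (gy K) = c * eval p (pderiv 1 f) := by
    obtain rfl | rfl : k = 0 ∨ k = 1 := by omega
    · refine ⟨eval p (gx K) / eval p (pderiv 0 f), by field_simp, ?_⟩
      field_simp
      linear_combination e - (eval p (gx K) * eval p (pderiv 1 f)) * t
    · refine ⟨eval p (gy K) / eval p (pderiv 1 f), ?_, by field_simp⟩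
      field_simp
      linear_combination e - (eval p (gy K) * eval p (pderiv 0 f)) * t
  have := mem_sq (p := p) (w := g K - C (eval p (g K)) - C c * f) (by simp [h0])
    (by simp [d0g, c0]) (by simp [d1g, c1])
  simpa using add_mem (Submodule.mem_sup_left this) (Submodule.mem_sup_right
    (Ideal.mul_mem_left _ (C c) (Ideal.mem_span_singleton_self f)))

theorem norm_mem {p : Fin 2 → K} {α β : Pl K} {c : K} {μ : ℕ} {J : Ideal (Pl K)}
    (h1 : α + c • β ∈ mx p ^ μ) (h2 : β ∈ mx p ^ (μ - 1)) (h3 : g K - C (c ^ 2) ∈ mx p ^ 2 ⊔ J) :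
    α ^ 2 + β ^ 2 * g K ∈ mx p ^ (μ + μ) ⊔ J := by
  obtain ⟨w, hw, v, hv, e⟩ := Submodule.mem_sup.1 h3
  have : α ^ 2 + β ^ 2 * g K = (α + c • β) * (α + c • β) + β * β * w + β * β * v := by
    rw [smul_eq_C_mul]
    rw [map_pow] at e
    linear_combination (-β ^ 2) * e - (C c * α * β + C c ^ 2 * β ^ 2 - C c ^ 2 * β ^ 2) * two (K := K)
  rw [this]
  exact add_mem (Submodule.mem_sup_left (add_mem (mul_mem_pow h1 h1 le_rfl)
    (mul_mem_pow (mul_mem_pow h2 h2 le_rfl) hw (by omega))))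
    (Submodule.mem_sup_right (Ideal.mul_mem_left _ _ hv))

theorem cofactor {p : Fin 2 → K} (h : Sing p) {f q : Pl K} (hf : f ≠ 0) {d : ℕ}
    (e : dl f - (d : Pl K) * lam K * f = f * q) :
    eval p q = ((ordN p f : K) - d) * eval p (lam K) := by
  have h1 := h.rad _ ((mem_ord hf).2 le_rfl)
  have h2 := of_mul_mem (n := 1) (w := q - ((ordN p f : Pl K) - (d : Pl K)) * lam K) hf (by
    convert h1 using 1
    linear_combination -e)
  rw [pow_one, mem_mx] at h2
  simpa [sub_eq_zero] using h2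

theorem sing_finite : {p : Fin 2 → K | Sing p}.Finite := by
  classical
  have t : (2 : K) = 0 := CharTwo.two_eq_zero
  let r : Polynomial K := .X ^ 16 + (1 + .X ^ 4) ^ 4 * (.X + .X ^ 2 + .X ^ 5)
  have hr : r ≠ 0 := fun h => by
    have := congrArg (Polynomial.eval 1) h
    simp only [r, Polynomial.eval_add, Polynomial.eval_mul, Polynomial.eval_pow, Polynomial.eval_X,
      Polynomial.eval_one, Polynomial.eval_zero] at this
    exact one_ne_zero (α := K) (by linear_combination this - 24 * t)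
  refine (r.roots.toFinset.image fun a => ![a, a ^ 4 / (1 + a ^ 4)]).finite_toSet.subset
    fun p ⟨h1, h2⟩ => ?_
  simp [gx, gy] at h1 h2
  have h3 : 1 + p 0 ^ 4 ≠ 0 := fun h => by
    rw [h, mul_zero, zero_add] at h1
    simp [h1] at h
  have h4 : p 1 * (1 + p 0 ^ 4) = p 0 ^ 4 := by linear_combination h1 - p 0 ^ 4 * t
  refine mem_coe.2 (mem_image.2 ⟨p 0, ?_, ?_⟩)
  · rw [Multiset.mem_toFinset, Polynomial.mem_roots hr, Polynomial.IsRoot.def]
    simp only [r, Polynomial.eval_add, Polynomial.eval_mul, Polynomial.eval_pow, Polynomial.eval_X,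
      Polynomial.eval_one]
    have h5 : (p 1 * (1 + p 0 ^ 4)) ^ 4 = (p 0 ^ 4) ^ 4 := by rw [h4]
    linear_combination (1 + p 0 ^ 4) ^ 4 * h2 - h5
  · ext k
    fin_cases k
    · rfl
    · exact (div_eq_iff h3).2 h4.symm

variable [IsAlgClosed K] {ι : Type*} [Fintype ι] {P : ι → Fin 2 → K}

theorem coprime {f : Pl K} (hf : Irreducible f) (h0 : f ∣ gx K) (h1 : f ∣ gy K) : False := by
  obtain ⟨Q, h, e, -⟩ := supply1 hf (u := 1) (fun h => hf.not_isUnit (isUnit_of_dvd_one h))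
    (sing_finite (K := K)).toFinset
  obtain ⟨a, ha⟩ := h0
  obtain ⟨b, hb⟩ := h1
  exact h ((Set.Finite.mem_toFinset _).2 ⟨by simp [ha, e], by simp [hb, e]⟩)

theorem caseN (hP : Function.Injective P) (hs : ∀ i, Sing (P i)) {f : Pl K} (hf : Irreducible f)
    (h : ¬ f ∣ dl f - (f.totalDegree : Pl K) * lam K * f) :
    ∑ i, ordN (P i) f ^ 2 ≤ f.totalDegree ^ 2 + 1 := by
  have hm : ∀ i, f ∈ mx (P i) ^ ordN (P i) f := fun i => (mem_ord hf.ne_zero).2 le_rfl
  have h1 := bez hP hf h (dl_deg (mem_T_succ.2 le_rfl)) hm (n := fun i => ordN (P i) f + 1)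
    fun i => by
      convert add_mem (Submodule.mem_sup_left ((hs i).rad _ (hm i))) (Submodule.mem_sup_right
        (Ideal.mul_mem_left _ (((ordN (P i) f : Pl K) - f.totalDegree) * lam K)
          (Ideal.mem_span_singleton_self f))) using 1
      ring
  have h2 := A_genus P hP f hf _ rfl _ fun i => (mem_mx_iff _ _ _).1 (hm i)
  zify at h1 ⊢
  have h3 := add_le_add h1 h2
  rw [← sum_add_distrib, sum_congr rfl (g := fun i => 2 * (ordN (P i) f : ℤ) ^ 2)
    (fun i _ => by ring), ← mul_sum] at h3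
  nlinarith

omit [Field K] [CharP K 2] [IsAlgClosed K] [Fintype ι] in
theorem elim_inj {Q : ℕ → Fin 2 → K} (hP : Function.Injective P) (hQ : Function.Injective Q)
    (h : ∀ i j, P i ≠ Q j) (N : ℕ) :
    Function.Injective (Sum.elim P fun j : Fin N => Q j) :=
  hP.sumElim (hQ.comp Fin.val_injective) fun i j => h i j

theorem vanish (hP : Function.Injective P) (hs : ∀ i, Sing (P i)) {f θ : Pl K}
    (hf : Irreducible f) (h : dl f = f * θ) {Q : ℕ → Fin 2 → K} (hQ : Function.Injective Q)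
    (hPQ : ∀ i j, P i ≠ Q j) {k : Fin 2}
    (hQ' : ∀ j, eval (Q j) f = 0 ∧ eval (Q j) (pderiv k f) ≠ 0) {n N N' : ℕ}
    (hn : f.totalDegree + 3 ≤ n) (hN : n * f.totalDegree < ∑ i, ordN (P i) f ^ 2 + N)
    (hN' : (2 * n - f.totalDegree) * f.totalDegree < ∑ i, ordN (P i) f ^ 2 + 2 * N')
    {r : K → K} (hr : ∀ c, r c ^ 2 = c) {α β : Pl K} (hα : α ∈ T K (n + 1)) (hβ : β ∈ T K (n - 2))
    (h1 : ∀ i, α + r (eval (P i) (g K)) • β ∈ mx (P i) ^ ordN (P i) f)
    (h2 : ∀ i, β ∈ mx (P i) ^ (ordN (P i) f - 1))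
    (h3 : ∀ j : Fin N, α + r (eval (Q j) (g K)) • β ∈ mx (Q j) ^ 1)
    (h4 : ∀ j : Fin N', β ∈ mx (Q j) ^ 1) : f ∣ α ∧ f ∣ β := by
  have hm : ∀ i, f ∈ mx (P i) ^ ordN (P i) f := fun i => (mem_ord hf.ne_zero).2 le_rfl
  have hm' : ∀ j, f ∈ mx (Q j) ^ 1 := fun j => by rw [pow_one]; exact mem_mx.2 (hQ' j).1
  have hF : α ^ 2 + β ^ 2 * g K ∈ T K (2 * n + 1) := add_mem (sq α ▸ T_mul hα hα (by omega))
    (T_mul (sq β ▸ T_mul hβ hβ (c := 2 * n - 5) (by omega)) g_mem (by omega))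
  have hP1 : ∀ i, α ^ 2 + β ^ 2 * g K ∈ mx (P i) ^ (ordN (P i) f + ordN (P i) f) := fun i => by
    simpa using norm_mem (J := ⊥) (h1 i) (h2 i) (by rw [hr, sup_bot_eq]; exact (hs i).sq)
  obtain ⟨G, hG⟩ : f ∣ α ^ 2 + β ^ 2 * g K := by
    by_contra hc
    have := bez (elim_inj hP hQ hPQ N) hf hc hF
      (m := Sum.elim (fun i => ordN (P i) f) fun _ => 1)
      (n := Sum.elim (fun i => ordN (P i) f + ordN (P i) f) fun _ => 1 + 1)
      (Sum.forall.2 ⟨hm, fun j => hm' j⟩) (Sum.forall.2 ⟨fun i => Submodule.mem_sup_left (hP1 i),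
        fun j => norm_mem (h3 j) (by simp) (by rw [hr]; exact tangent h (hQ' j).1 (hQ' j).2)⟩)
    simp only [Fintype.sum_sum_type, Sum.elim_inl, Sum.elim_inr, mul_add, ← sq, sum_add_distrib,
      sum_const, card_univ, Fintype.card_fin, smul_eq_mul] at this
    nlinarith
  have hD : ∀ j, β ^ 2 * pderiv j (g K) = pderiv j f * G + f * pderiv j G := fun j => by
    have := congrArg (pderiv j) hG
    simp only [map_add, pderiv_mul, sq] at this
    linear_combination this - (α * pderiv j α + β * pderiv j β * g K) * two (K := K)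
  have hfG : f ∣ G := by
    by_contra hc
    have := bez (elim_inj hP hQ hPQ N') hf hc (e := 2 * n - f.totalDegree)
      (T_mono (T_div hf.ne_zero (hG ▸ hF)) (by omega))
      (m := Sum.elim (fun i => ordN (P i) f) fun _ => 1)
      (n := Sum.elim (fun i => ordN (P i) f) fun _ => 2)
      (Sum.forall.2 ⟨hm, fun j => hm' j⟩) (Sum.forall.2
        ⟨fun i => Submodule.mem_sup_left (of_mul_mem hf.ne_zero (hG ▸ hP1 i)), fun j => by
          refine of_unit_mul (hQ' j).2 ?_
          rw [show G * pderiv k f = β * β * pderiv k (g K) - pderiv k G * f by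
            linear_combination -hD k]
          exact sub_mem (Submodule.mem_sup_left (Ideal.mul_mem_right _ _
            (mul_mem_pow (h4 j) (h4 j) le_rfl))) (Submodule.mem_sup_right
            (Ideal.mul_mem_left _ _ (Ideal.mem_span_singleton_self f)))⟩)
    simp only [Fintype.sum_sum_type, Sum.elim_inl, Sum.elim_inr, ← sq,
      sum_const, card_univ, Fintype.card_fin, smul_eq_mul] at this
    omega
  have hb : f ∣ β := by
    by_contra hc
    have : ∀ j, f ∣ pderiv j (g K) := fun j => by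
      have e : f ∣ β ^ 2 * pderiv j (g K) := by
        rw [hD j]
        exact dvd_add (hfG.mul_left _) (dvd_mul_right _ _)
      exact (hf.prime.dvd_or_dvd e).resolve_left fun e => hc (hf.prime.dvd_of_dvd_pow e)
    exact coprime hf (by rw [← d0g]; exact this 0) (by rw [← d1g]; exact this 1)
  refine ⟨hf.prime.dvd_of_dvd_pow (n := 2) ?_, hb⟩
  rw [eq_sub_of_add_eq hG]
  exact dvd_sub (dvd_mul_right _ _) ((dvd_pow hb two_ne_zero).mul_right _)

theorem caseI (hP : Function.Injective P) (hs : ∀ i, Sing (P i)) {f θ : Pl K}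
    (hf : Irreducible f) (h : dl f = f * θ) :
    ∑ i, ordN (P i) f ^ 2 ≤ f.totalDegree ^ 2 + 4 := by
  classical
  obtain ⟨k, hk⟩ := exists_pderiv hf
  obtain ⟨Q, hQ, hQ'⟩ := supply hf hk (univ.image P)
  choose r hr using fun c : K => IsAlgClosed.exists_pow_nat_eq c two_pos
  have hd := deg_pos hf
  set d := f.totalDegree with hd'
  set M := ∑ i, ordN (P i) f ^ 2 with hM
  obtain ⟨t, ht⟩ : ∃ t, M < t := ⟨M + 1, by omega⟩
  obtain ⟨N, hN⟩ : ∃ N, (t + 2 + d) * d + 1 = M + N := Nat.exists_eq_add_of_le (by nlinarith)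
  obtain ⟨W, hW⟩ : ∃ W, (2 * t + 4 + d) * d = M + W := Nat.exists_eq_add_of_le (by nlinarith)
  let V := T K (t + 2 + d + 1) × T K (t + 2 + d - 2)
  let a : V →ₗ[K] Pl K := (T K _).subtype ∘ₗ LinearMap.fst K _ _
  let b : V →ₗ[K] Pl K := (T K _).subtype ∘ₗ LinearMap.snd K _ _
  have c1 := cd_cond (fun i => a + r (eval (P i) (g K)) • b) P (fun i => ordN (P i) f) univ
  have c2 := cd_cond (fun _ => b) P (fun i => ordN (P i) f - 1) univ
  have c3 := cd_cond (fun j : Fin N => a + r (eval (Q j) (g K)) • b) (fun j => Q j) (fun _ => 1) univ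
  have c4 := cd_cond (fun _ : Fin (W / 2 + 1) => b) (fun j => Q j) (fun _ => 1) univ
  have c12 := cd_inf c1.1 c2.1
  have c34 := cd_inf c3.1 c4.1
  have c := (cd_inf c12.1 c34.1).2
  have hT : f ∈ T K (d + 1) := mem_T_succ.2 le_rfl
  let ψ : T K (t + 3) × T K t →ₗ[K] V :=
    ((LinearMap.mulLeft K f).restrict fun x hx => T_mul hT hx (by omega)).prodMap
      ((LinearMap.mulLeft K f).restrict fun x hx => T_mul hT hx (by omega))
  have e := cd_add_finrank (K := K) (V := V) _ |>.ge.trans (Nat.add_le_add c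
    ((Submodule.finrank_mono (t := LinearMap.range ψ) ?_).trans ψ.finrank_range_le))
  · have e1 : ∑ i, ordN (P i) f * (ordN (P i) f + 1) +
        ∑ i, (ordN (P i) f - 1) * (ordN (P i) f - 1 + 1) = 2 * M := by
      rw [← sum_add_distrib, hM, mul_sum]
      refine sum_congr rfl fun i _ => ?_
      cases ordN (P i) f with
      | zero => rfl
      | succ m => rw [Nat.add_sub_cancel]; ring
    have d1 := c1.2
    have d2 := c2.2
    have d3 := c3.2
    have d4 := c4.2
    simp only [sum_const, card_univ, Fintype.card_fin, smul_eq_mul] at d3 d4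
    have f1 := finrank_T (K := K) (t + 2 + d + 1)
    have f2 := finrank_T (K := K) (t + 2 + d - 2)
    have f3 := finrank_T (K := K) (t + 3)
    have f4 := finrank_T (K := K) t
    rw [finrank_prod, finrank_prod] at e
    have h5 : 2 * (finrank K (T K (t + 2 + d + 1)) + finrank K (T K (t + 2 + d - 2))) ≤
        2 * M + 2 * N + W + 2 + 2 * (finrank K (T K (t + 3)) + finrank K (T K t)) := by
      have := c12.2
      have := c34.2
      omega
    rw [mul_add, mul_add, f1, f2, f3, f4, show t + 2 + d - 2 = t + d by omega] at h5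
    nlinarith
  · rintro ⟨α, β⟩ ⟨⟨h1, h2⟩, h3, h4⟩
    simp only [mem_univ, iInf_pos, SetLike.mem_coe, Submodule.mem_iInf, Submodule.mem_comap,
      Submodule.restrictScalars_mem] at h1 h2 h3 h4
    obtain ⟨⟨u, hu⟩, v, hv⟩ := vanish hP hs hf h hQ
      (fun i j e => (hQ' j).1 (mem_image.2 ⟨i, mem_univ _, e⟩)) (fun j => (hQ' j).2)
      (n := t + 2 + d) (N := N) (N' := W / 2 + 1) (by omega) (by rw [← hd', ← hM]; omega)
      (by rw [← hd', ← hM, show 2 * (t + 2 + d) - d = 2 * t + 4 + d by omega]; omega)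
      hr α.2 β.2 h1 h2 h3 h4
    exact ⟨(⟨u, T_mono (T_div hf.ne_zero (hu ▸ α.2)) (by omega)⟩,
      ⟨v, T_mono (T_div hf.ne_zero (hv ▸ β.2)) (by omega)⟩),
      Prod.ext (Subtype.ext hu.symm) (Subtype.ext hv.symm)⟩

end Pool.Agent.P.MP_d3e5c7_ag.K3
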