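import Pool.Agent.P.MP_d3e5c7_ag.K3.B

/-! The twenty-one zeros of the vector field, by computation in the field with `2 ^ 20`
elements. -/

set_option autoImplicit false

namespace Pool.Agent.P.MP_d3e5c7_ag.K3

open MvPolynomial PA Finset

/-- multiplication by `t` -/
def sh (a : ℕ) : ℕ := if a < 524288 then 2 * a else (2 * a) ^^^ 1277971

/-- multiplication with a step counter -/
def muA : ℕ → ℕ → ℕ → ℕ
  | 0, _, _ => 0
  | n + 1, a, b => if b = 0 then 0 else (b % 2 * a) ^^^ muA n (sh a) (b / 2)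

/-- multiplication -/
def mu (a b : ℕ) : ℕ := muA b a b

/-- powers -/
def pw (a : ℕ) : ℕ → ℕ
  | 0 => 1
  | n + 1 => mu (pw a n) a

/-- sums -/
def sm (f : ℕ → ℕ) : ℕ → ℕ
  | 0 => 0
  | n + 1 => sm f n ^^^ f n

/-- first coordinates -/
def xs (k : ℕ) : ℕ := [2, 4, 16, 256, 65536, 330216, 475963, 206166, 441213, 715567, 134703,
  926649, 623429, 106698, 172023, 176518, 893177, 1015652, 281137, 953093].getD k 0

/-- second coordinates -/
def ys (k : ℕ) : ℕ := [152918, 10022, 38, 1044, 229635, 191524, 292144, 790143, 290972, 969276,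
  562644, 1042741, 923740, 578108, 44529, 725765, 775174, 362237, 950287, 720906].getD k 0

/-- the dual basis -/
def zs (k : ℕ) : ℕ := [428309, 326219, 383263, 214470, 650955, 160887, 501510, 980696, 1000639,
  335388, 857917, 190521, 521330, 979546, 820392, 1008575, 334382, 954922, 230686, 93542].getD k 0

theorem c1 : ∀ k < 21, mu (ys k) (1 ^^^ pw (xs k) 4) ^^^ pw (xs k) 4 = 0 ∧
    pw (ys k) 4 ^^^ xs k ^^^ pw (xs k) 2 ^^^ pw (xs k) 5 = 0 := by decide +kernel

theorem c2 : ∀ k < 20, pw (ys k) 2 = ys ((k + 1) % 20) := by decide +kernel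

theorem c3 : ∀ a < 4, ∀ b < 5 - a,
    sm (fun k => mu (mu (pw (xs k) a) (pw (ys k) b)) (1 ^^^ ys k)) 21 = 0 := by decide +kernel

theorem c4 : ∀ l < 20, ∀ i < 20, sm (fun j => mu (zs ((j + l) % 20)) (ys ((i + j) % 20))) 20 =
    if i = l then 1 else 0 := by decide +kernel

variable {K : Type*} [Field K]

/-- the value of a bit mask -/
noncomputable def ev (ξ : K) (a : ℕ) : K := if a = 0 then 0 else a + ξ * ev ξ (a / 2)
decreasing_by omega

/-- the points -/
noncomputable def pt (ξ : K) (k : ℕ) : Fin 2 → K := ![ev ξ (xs k), ev ξ (ys k)]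

variable {ξ : K}

theorem ev_zero : ev ξ 0 = 0 := by rw [ev, if_pos rfl]

theorem ev_eq (a : ℕ) : ev ξ a = a + ξ * ev ξ (a / 2) := by
  rcases eq_or_ne a 0 with rfl | h
  · simp [ev_zero]
  · rw [ev, if_neg h]

theorem ev_one : ev ξ 1 = 1 := by simp [ev_eq 1, ev_zero]

variable [CharP K 2]

theorem ev_xor (a b : ℕ) : ev ξ (a ^^^ b) = ev ξ a + ev ξ b := by
  induction h : a + b using Nat.strong_induction_on generalizing a b with
  | _ n ih =>
    rcases Nat.eq_zero_or_pos n with rfl | hn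
    · obtain ⟨rfl, rfl⟩ : a = 0 ∧ b = 0 := by omega
      simp [ev_zero]
    rw [ev_eq, Nat.xor_div_two, ih _ (by omega) _ _ rfl, ev_eq a, ev_eq b,
      CharP.cast_eq_mod K 2, Nat.xor_mod_two_eq, ← CharP.cast_eq_mod K 2]
    push_cast
    ring

theorem ev_two (a : ℕ) : ev ξ (2 * a) = ξ * ev ξ a := by
  rw [ev_eq, Nat.mul_div_cancel_left _ two_pos, Nat.cast_mul, CharP.cast_eq_zero K 2]
  ring

theorem ev_pow (k : ℕ) : ev ξ (2 ^ k) = ξ ^ k := by
  induction k with
  | zero => rw [pow_zero, pow_zero, ev_one]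
  | succ k ih => rw [pow_succ', ev_two, ih, pow_succ']

theorem ev_sm (f : ℕ → ℕ) (n : ℕ) : ev ξ (sm f n) = ∑ k ∈ range n, ev ξ (f k) := by
  induction n with
  | zero => exact ev_zero
  | succ n ih => rw [sm, ev_xor, ih, sum_range_succ]

theorem exists_root [IsAlgClosed K] : ∃ ξ : K, ev ξ 1277971 = 0 := by
  obtain ⟨ξ, h⟩ := IsAlgClosed.exists_root
    (.X ^ 20 + .X ^ 17 + .X ^ 16 + .X ^ 15 + .X ^ 4 + .X ^ 1 + .X ^ 0 : Polynomial K) (by
      rw [show Polynomial.degree _ = 20 by compute_degree!]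
      decide)
  refine ⟨ξ, ?_⟩
  rw [show 1277971 = 2 ^ 20 ^^^ 2 ^ 17 ^^^ 2 ^ 16 ^^^ 2 ^ 15 ^^^ 2 ^ 4 ^^^ 2 ^ 1 ^^^ 2 ^ 0 by decide]
  simpa only [ev_xor, ev_pow, Polynomial.IsRoot.def, Polynomial.eval_add, Polynomial.eval_pow,
    Polynomial.eval_X] using h

variable (h : ev ξ 1277971 = 0)
include h

theorem ev_sh (a : ℕ) : ev ξ (sh a) = ξ * ev ξ a := by
  unfold sh
  split_ifs
  · exact ev_two a
  · rw [ev_xor, h, ev_two, add_zero]

theorem ev_muA (n a b : ℕ) (hb : b ≤ n) : ev ξ (muA n a b) = ev ξ a * ev ξ b := by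
  induction n generalizing a b with
  | zero => rw [Nat.le_zero.1 hb, muA, ev_zero, mul_zero]
  | succ n ih =>
    rw [muA]
    split_ifs with h0
    · rw [h0, ev_zero, mul_zero]
    rw [ev_xor, ih _ _ (by omega), ev_sh h, ev_eq b, CharP.cast_eq_mod K 2 b]
    rcases Nat.mod_two_eq_zero_or_one b with e | e <;> simp [e, ev_zero] <;> ring

theorem ev_mu (a b : ℕ) : ev ξ (mu a b) = ev ξ a * ev ξ b := ev_muA h b a b le_rfl

theorem ev_pw (a n : ℕ) : ev ξ (pw a n) = ev ξ a ^ n := by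
  induction n with
  | zero => exact ev_one.trans (pow_zero _).symm
  | succ n ih => rw [pw, ev_mu h, ih, pow_succ]

theorem sing_pt {k : ℕ} (hk : k < 21) : Sing (pt ξ k) := by
  have h1 := congrArg (ev ξ) (c1 k hk).1
  have h2 := congrArg (ev ξ) (c1 k hk).2
  simp only [ev_xor, ev_mu h, ev_pw h, ev_one, ev_zero] at h1 h2
  exact ⟨by simpa [gx, pt] using h1, by simpa [gy, pt] using h2⟩

theorem indep {ε : ℕ → K} (h2 : ∀ i, ε i ^ 2 = ε i) (h0 : ∑ i ∈ range 21, ε i = 0)
    (h1 : ∑ i ∈ range 21, ε i * pt ξ i 1 = 0) : ∀ i < 21, ε i = 0 := by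
  have w : ∀ j, ∑ i ∈ range 20, ε i * ev ξ (ys ((i + j) % 20)) = 0 := fun j => by
    induction j with
    | zero =>
      rw [sum_range_succ, show pt ξ 20 1 = 0 from ev_zero, mul_zero, add_zero] at h1
      exact (sum_congr rfl fun i hi => by
        rw [add_zero, Nat.mod_eq_of_lt (mem_range.1 hi)]; rfl).trans h1
    | succ j ih =>
      have := congrArg (· ^ 2) ih
      simp only [sum_pow_char, mul_pow, h2, ← ev_pw h] at this
      refine (sum_congr rfl fun i _ => ?_).trans (this.trans (zero_pow two_ne_zero))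
      rw [c2 _ (Nat.mod_lt _ (by norm_num)), Nat.mod_add_mod, add_assoc]
  have v : ∀ l < 20, ε l = 0 := fun l hl => by
    have e : ∑ i ∈ range 20, ε i * ∑ j ∈ range 20, ev ξ (zs ((j + l) % 20)) *
        ev ξ (ys ((i + j) % 20)) = ∑ i ∈ range 20, if i = l then ε i else 0 :=
      sum_congr rfl fun i hi => by
        have := congrArg (ev ξ) (c4 l hl i (mem_range.1 hi))
        simp only [ev_sm, ev_mu h] at this
        rw [this]
        split_ifs <;> simp [ev_one, ev_zero]
    rw [sum_ite_eq', if_pos (mem_range.2 hl)] at e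
    simp only [mul_sum, mul_left_comm (ε _)] at e
    rw [← e, sum_comm]
    exact sum_eq_zero fun j _ => by rw [← mul_sum, w, mul_zero]
  intro i hi
  rcases Nat.lt_succ_iff_lt_or_eq.1 hi with hi | rfl
  · exact v i hi
  · rwa [sum_range_succ, sum_eq_zero fun i hi => v i (mem_range.1 hi), zero_add] at h0

theorem pt_inj : Function.Injective fun i : Fin 21 => pt ξ i := fun i j e => by
  by_contra hne
  have hne' : i.val ≠ j.val := fun e => hne (Fin.ext e)
  have := indep h (ε := fun k => (if k = i.val then 1 else 0) + if k = j.val then 1 else 0)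
    (fun k => by rw [add_pow_char]; split_ifs <;> simp)
    (by simp [sum_add_distrib, CharTwo.add_self_eq_zero])
    (by simp [sum_add_distrib, add_mul, show pt ξ i = pt ξ j from e, CharTwo.add_self_eq_zero])
    i i.2
  simp [hne'] at this

theorem resid {q : Pl K} (hq : q ∈ T K 4) (b : ℕ) (hb : b < 2) :
    ∑ i ∈ range 21, eval (pt ξ i) q * (1 + pt ξ i 1) * pt ξ i 1 ^ b = 0 := by
  rw [q.as_sum]
  simp only [map_sum, sum_mul]
  rw [sum_comm]
  refine sum_eq_zero fun β hβ => ?_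
  have h1 : β.degree < 4 := hq hβ
  rw [Finsupp.degree_eq_sum, Fin.sum_univ_two] at h1
  have h2 := congrArg (ev ξ) (c3 (β 0) (by omega) (β 1 + b) (by omega))
  simp only [ev_sm, ev_mu h, ev_pw h, ev_xor, ev_one, ev_zero] at h2
  rw [← mul_zero (coeff β q), ← h2, mul_sum]
  refine sum_congr rfl fun i _ => ?_
  simp [eval_monomial, Finsupp.prod_fintype, pt]
  ring

theorem parity {f : Pl K} (hf : f ≠ 0) (e : f ∣ dl f - (f.totalDegree : Pl K) * lam K * f) :
    ∀ i < 21, ordN (pt ξ i) f % 2 = f.totalDegree % 2 := by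
  obtain ⟨q, e⟩ := e
  have hq : q ∈ T K 4 := T_mono (T_div hf (e ▸ dl_deg (mem_T_succ.2 le_rfl))) (by omega)
  have h1 : ∀ i ∈ range 21, ((ordN (pt ξ i) f : K) - f.totalDegree) =
      eval (pt ξ i) q * (1 + pt ξ i 1) := fun i hi => by
    have s := sing_pt h (mem_range.1 hi)
    have t := s.1
    rw [cofactor s hf e]
    simp [gx, lam] at t ⊢
    linear_combination ((f.totalDegree : K) - ordN (pt ξ i) f) * t
  have h2 := indep h (ε := fun i => (ordN (pt ξ i) f : K) - f.totalDegree)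
    (fun i => by
      rw [sub_pow_char, ← map_natCast (ZMod.castHom dvd_rfl K), ← map_natCast (ZMod.castHom dvd_rfl K),
        ← map_pow, ← map_pow, ZMod.pow_card, ZMod.pow_card])
    ((sum_congr rfl fun i hi => by rw [h1 i hi, pow_zero, mul_one]).trans (resid h hq 0 two_pos))
    ((sum_congr rfl fun i hi => by rw [h1 i hi, pow_one]).trans (resid h hq 1 one_lt_two))
  exact fun i hi => (CharP.natCast_eq_natCast K 2).1 (sub_eq_zero.1 (h2 i hi))

end Pool.Agent.P.MP_d3e5c7_ag.K3
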