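import Pool.Agent.P.MP_d3e5c7_ag.K3.C

/-! The classes of irreducible curves on the model, and the passage to very general points. -/

set_option autoImplicit false

namespace Pool.Agent.P.MP_d3e5c7_ag.K3

open MvPolynomial PA Finset

/-- the walls of the chamber -/
def Ch {s : ℕ} (a0 : ℝ) (a : Fin s → ℝ) : Prop :=
  ∀ (e : ℕ) (k : Fin s → ℕ), 0 < e → (∑ i, k i ^ 2 = e ^ 2 + 1 ∨
    (Odd e ∧ (∀ i, Odd (k i)) ∧ ∑ i, k i ^ 2 + 17 = e ^ 2 + s)) → ∑ i, a i * k i ≤ a0 * e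

variable {s : ℕ} {a0 : ℝ} {a : Fin s → ℝ}

theorem cs0 (h0 : 0 ≤ a0) (hq : ∑ i, a i ^ 2 ≤ a0 ^ 2) {e : ℝ} {k : Fin s → ℝ} (he : 0 ≤ e)
    (h : ∑ i, k i ^ 2 ≤ e ^ 2) : ∑ i, a i * k i ≤ a0 * e := by
  refine le_of_sq_le_sq ((sum_mul_sq_le_sq_mul_sq _ _ _).trans ?_) (by positivity)
  rw [mul_pow]
  exact mul_le_mul hq h (by positivity) (by positivity)

theorem cs (h0 : 0 ≤ a0) (hq : ∑ i, a i ^ 2 ≤ a0 ^ 2) {e : ℕ} {k : Fin s → ℕ}
    (h : ∑ i, k i ^ 2 ≤ e ^ 2) : ∑ i, a i * k i ≤ a0 * e :=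
  cs0 h0 hq e.cast_nonneg (by exact_mod_cast h)

theorem base (h0 : 0 ≤ a0) (hq : ∑ i, a i ^ 2 ≤ a0 ^ 2) (hc : Ch a0 a) {e : ℕ} (he : 0 < e)
    {k : Fin s → ℕ} (h : ∑ i, k i ^ 2 ≤ e ^ 2 + 1) : ∑ i, a i * k i ≤ a0 * e :=
  (Nat.of_le_succ h).elim (cs h0 hq) fun h => hc e k he (.inl h)

theorem sq_mod {k : ℕ} (h : k % 2 = 1) : k ^ 2 % 8 = 1 := by
  have : k % 8 = 1 ∨ k % 8 = 3 ∨ k % 8 = 5 ∨ k % 8 = 7 := by omega
  rcases this with h | h | h | h <;> simp [Nat.pow_mod, h]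

theorem types (hs : s ≤ 21) (h0 : 0 ≤ a0) (hq : ∑ i, a i ^ 2 ≤ a0 ^ 2) (hc : Ch a0 a) {d : ℕ}
    (hd : 0 < d) {m : ℕ → ℕ} (h : ∑ i ∈ range 21, m i ^ 2 ≤ d ^ 2 + 1 ∨
      (∑ i ∈ range 21, m i ^ 2 ≤ d ^ 2 + 4 ∧ ∀ i < 21, m i % 2 = d % 2)) :
    ∑ i : Fin s, a i * m i ≤ a0 * d := by
  rw [← sum_range_add_sum_Ico _ hs, ← Fin.sum_univ_eq_sum_range fun i => m i ^ 2] at h
  rcases h with h | ⟨h, hp⟩
  · exact base h0 hq hc hd (k := fun i => m i) (by omega)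
  have hp' : ∀ i : Fin s, m i % 2 = d % 2 := fun i => hp i (by omega)
  rcases Nat.mod_two_eq_zero_or_one d with e | e
  · obtain ⟨c, rfl⟩ : ∃ c, d = 2 * c := ⟨d / 2, by omega⟩
    have e1 : ∀ i : Fin s, m i = 2 * (m i / 2) := fun i => by have := hp' i; omega
    have e2 : ∑ i : Fin s, m i ^ 2 = 4 * ∑ i : Fin s, (m i / 2) ^ 2 := by
      rw [mul_sum]
      exact sum_congr rfl fun i _ => (congrArg (· ^ 2) (e1 i)).trans (by ring)
    have := base h0 hq hc (e := c) (by omega) (k := fun i => m i / 2) (by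
      rw [e2, mul_pow] at h
      omega)
    have e3 : ∑ i : Fin s, a i * m i = 2 * ∑ i : Fin s, a i * (m i / 2 : ℕ) := by
      rw [mul_sum]
      exact sum_congr rfl fun i _ => (congrArg (fun t : ℕ => a i * t) (e1 i)).trans (by
        rw [Nat.cast_mul, Nat.cast_ofNat]; ring)
    rw [e3]
    push_cast
    linarith
  · have e1 := card_nsmul_le_sum (Ico s 21) (fun i => m i ^ 2) 1 fun i hi =>
      Nat.one_le_pow _ _ (by have := hp i (mem_Ico.1 hi).2; omega)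
    rw [Nat.card_Ico, smul_eq_mul, mul_one] at e1
    have e2 : (∑ i : Fin s, m i ^ 2) % 8 = s % 8 := by
      rw [sum_nat_mod, sum_congr rfl fun i _ => sq_mod ((hp' i).trans e)]
      simp
    have e3 := sq_mod e
    by_cases e4 : ∑ i : Fin s, m i ^ 2 + 17 = d ^ 2 + s
    · exact hc d (fun i => m i) hd (.inr ⟨Nat.odd_iff.2 e,
        fun i => Nat.odd_iff.2 ((hp' i).trans e), e4⟩)
    · exact cs h0 hq (k := fun i => m i) (by omega)

theorem model {K : Type*} [Field K] [CharP K 2] [IsAlgClosed K] {ξ : K} (h : ev ξ 1277971 = 0)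
    (hs : s ≤ 21) (h0 : 0 ≤ a0) (hq : ∑ i, a i ^ 2 ≤ a0 ^ 2) (hc : Ch a0 a) (f : Pl K) :
    f ≠ 0 → ∑ i : Fin s, a i * ordN (pt ξ i) f ≤ a0 * f.totalDegree := by
  refine WfDvdMonoid.induction_on_irreducible f (fun h => absurd rfl h) (fun u hu _ => ?_)
    fun u v hu hv ih _ => ?_
  · obtain ⟨v, hv⟩ := hu.exists_right_inv
    refine (sum_eq_zero fun i _ => ?_).trans_le (by positivity)
    have h1 := ordN_mul (pt ξ i) (one_ne_zero (α := Pl K)) one_ne_zero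
    have h2 := ordN_mul (pt ξ i) hu.ne_zero (right_ne_zero_of_mul_eq_one hv)
    rw [mul_one] at h1
    rw [hv] at h2
    rw [show ordN (pt ξ i) u = 0 by omega, Nat.cast_zero, mul_zero]
  · have h1 := ih hu
    have hS : ∀ i : Fin 21, Sing (pt ξ i) := fun i => sing_pt h i.2
    have h2 := types hs h0 hq hc (deg_pos hv) (m := fun i => ordN (pt ξ i) v) (by
      rw [← Fin.sum_univ_eq_sum_range fun i => ordN (pt ξ i) v ^ 2]
      by_cases e : v ∣ dl v - (v.totalDegree : Pl K) * lam K * v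
      · obtain ⟨θ, e'⟩ : v ∣ dl v := (dvd_sub_left (dvd_mul_left v _)).1 e
        exact .inr ⟨caseI (pt_inj h) hS hv e', parity h hv.ne_zero e⟩
      · exact .inl (caseN (pt_inj h) hS hv e))
    simp only [ordN_mul _ hv.ne_zero hu, totalDegree_mul_of_isDomain hv.ne_zero hu, Nat.cast_add,
      mul_add, sum_add_distrib]
    exact add_le_add h2 h1

theorem chamber (hs : s ≤ 21) {p : Fin s → Fin 2 → ℂ} (hp : Function.Injective
      (eval₂Hom (Int.castRingHom ℂ) fun ij : Fin s × Fin 2 => p ij.1 ij.2))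
    (h0 : 0 ≤ a0) (ha : ∀ i, 0 ≤ a i) (hq : ∑ i, a i ^ 2 ≤ a0 ^ 2) (hc : Ch a0 a)
    {m : Fin s → ℕ} {f : MvPolynomial (Fin 2) ℂ} (hf : f ≠ 0) (hm : ∀ i, Van (p i) (m i) f) :
    ∑ i, a i * m i ≤ a0 * f.totalDegree := by
  obtain ⟨ξ, h⟩ := exists_root (K := AlgebraicClosure (ZMod 2))
  obtain ⟨w, w0, w1, w2⟩ := special _ hp
    (eval₂Hom (Int.castRingHom _) fun ij : Fin s × Fin 2 => pt ξ ij.1 ij.2)
    (Finsupp.finite_of_degree_lt (σ := Fin 2) (f.totalDegree + 1)).toFinset (fun i k => X (i, k))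
    (fun i => m i) ⟨f, hf, fun β hβ => (Set.Finite.mem_toFinset _).2 (mem_T_succ.2 le_rfl hβ),
      by simpa using hm⟩
  have h1 : w.totalDegree ≤ f.totalDegree :=
    mem_T_succ.1 fun β hβ => (Set.Finite.mem_toFinset _).1 (w1 hβ)
  refine (sum_le_sum fun i _ => ?_).trans ((model h hs h0 hq hc w w0).trans (by gcongr))
  have := (van_iff_le_ordN (pt ξ i) w0 (m i)).1 (by simpa using w2 i)
  exact mul_le_mul_of_nonneg_left (by exact_mod_cast this) (ha i)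

end Pool.Agent.P.MP_d3e5c7_ag.K3
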