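import Pool.Agent.P.MP_d3e5c7_ag.K3.D

/-! For eighteen points the whole hyperplane orthogonal to `(5; 3, 1, ..., 1)` is a face of the
chamber. -/

set_option autoImplicit false

namespace Pool.Agent.P.MP_d3e5c7_ag.K3

open Finset

theorem sum_u (F : Fin 18 → ℝ) :
    ∑ i, F i * (if i = 0 then 3 else 1) = 2 * F 0 + ∑ i, F i := by
  rw [sum_congr rfl (g := fun i => (if i = 0 then 2 * F i else 0) + F i)
    fun i _ => by split_ifs <;> ring, sum_add_distrib]
  simp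

theorem sum_uu : ∑ i : Fin 18, (if i = 0 then 3 else 1 : ℝ) ^ 2 = 26 := by
  simp only [sq, sum_u]
  rw [sum_congr rfl fun i _ => (one_mul _).symm, sum_u]
  norm_num

theorem sphere_nonneg {a0 : ℝ} {a : Fin 18 → ℝ} (h0 : 0 ≤ a0) (hq : ∑ i, a i ^ 2 ≤ a0 ^ 2)
    (hu : 2 * a 0 + ∑ i, a i = 5 * a0) (j : Fin 18) : 0 ≤ a j := by
  obtain ⟨t, ht⟩ : ∃ t : ℝ, t = if j = 0 then 3 else 1 := ⟨_, rfl⟩
  have t1 : 1 ≤ t := by rw [ht]; split_ifs <;> norm_num
  have := cs0 h0 hq (e := 5 * t)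
    (k := fun i => t * (if i = 0 then 3 else 1) - if i = j then 1 else 0) (by linarith) (by
      simp only [sub_sq, mul_pow, sum_add_distrib, sum_sub_distrib, ← mul_sum, sum_uu]
      simp only [mul_boole, ite_pow, sum_ite_eq', mem_univ, if_true, ← ht, one_pow,
        zero_pow two_ne_zero]
      clear hq hu ht
      nlinarith)
  simp only [mul_sub, sum_sub_distrib, mul_left_comm (a _), ← mul_sum, sum_u, hu] at this
  simp only [mul_boole, sum_ite_eq', mem_univ, if_true] at this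
  linarith

theorem sphere {a0 : ℝ} {a : Fin 18 → ℝ} (h0 : 0 ≤ a0) (hq : ∑ i, a i ^ 2 ≤ a0 ^ 2)
    (hu : 2 * a 0 + ∑ i, a i = 5 * a0) : Ch a0 a := by
  have m3 : ∀ n : ℕ, 3 * n ≤ n ^ 2 + 2 := fun n => by
    clear h0 hq hu
    rcases le_or_gt n 1 with h | h <;> nlinarith
  intro e k he hk
  have h1 : ∑ i, k i ^ 2 = e ^ 2 + 1 := by omega
  have m2 : ∀ n : ℕ, n ^ 2 % 2 = n % 2 := fun n => by
    rcases Nat.mod_two_eq_zero_or_one n with h | h <;> simp [Nat.pow_mod, h]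
  have h2 : 2 * k 0 + ∑ i, k i ≠ 5 * e := by
    have a : (∑ i, k i ^ 2) % 2 = (∑ i, k i) % 2 := by
      rw [sum_nat_mod, sum_nat_mod _ _ k]
      simp only [m2]
    have := m2 e
    omega
  have r1 : ∑ i, (k i : ℝ) ^ 2 = e ^ 2 + 1 := by exact_mod_cast h1
  have u2 := sum_uu
  have h3 : 5 * (2 * k 0 + ∑ i, k i) ≤ 26 * e := by
    rcases le_or_gt 5 e with h | h
    · have c := sum_mul_sq_le_sq_mul_sq univ (fun i => (k i : ℝ)) fun i => if i = 0 then 3 else 1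
      rw [sum_u, r1, u2] at c
      have c' : (2 * k 0 + ∑ i, k i) ^ 2 ≤ (e ^ 2 + 1) * 26 := by exact_mod_cast c
      generalize 2 * k 0 + ∑ i, k i = S at c' ⊢
      have c2 : 5 * 5 ≤ e * e := Nat.mul_le_mul h h
      exact (pow_le_pow_iff_left₀ (Nat.zero_le _) (Nat.zero_le _) two_ne_zero).1 (by linarith)
    · rw [Fin.sum_univ_succ] at h1 ⊢
      have c : ∑ i : Fin 17, k i.succ ≤ ∑ i : Fin 17, k i.succ ^ 2 :=
        sum_le_sum fun i _ => Nat.le_self_pow two_ne_zero _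
      have c' := m3 (k 0)
      interval_cases e <;> omega
  obtain ⟨t, ht⟩ : ∃ t : ℤ, t = 5 * e - (2 * k 0 + ∑ i, k i : ℕ) := ⟨_, rfl⟩
  have t1 : (1 : ℝ) ≤ (t : ℝ) ^ 2 := by
    have : t ≠ 0 := by omega
    exact_mod_cast (one_le_sq_iff_one_le_abs t).2 (Int.one_le_abs this)
  have t2 : (t : ℝ) = 5 * e - (2 * k 0 + ∑ i, (k i : ℝ)) := by rw [ht]; push_cast; rfl
  have t3 : 5 * (2 * k 0 + ∑ i, (k i : ℝ)) ≤ 26 * e := by exact_mod_cast h3
  have := cs0 h0 hq (e := e + 5 * t) (k := fun i => k i + t * if i = 0 then 3 else 1)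
    (by linarith) (by
      simp only [add_sq, mul_pow, sum_add_distrib, ← mul_sum, r1, u2, mul_assoc,
        mul_left_comm (k _ : ℝ), sum_u]
      rw [show 2 * (k 0 : ℝ) + ∑ i, (k i : ℝ) = 5 * e - t by rw [t2, sub_sub_cancel]]
      linear_combination t1)
  simp only [mul_add, sum_add_distrib, mul_left_comm (a _), ← mul_sum, sum_u, hu] at this
  linarith

end Pool.Agent.P.MP_d3e5c7_ag.K3
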